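import Mathlib

set_option autoImplicit false

namespace Pool.Agent.H.MP_016f39_co

def big : ℕ :=
  14908327187680431603170075088142175461899800066542585613971241919667726827006449715082703590036522299097608

def nb (v : ℕ) : ℕ := (big >>> (19 * v)) % 524288

def adjB (u v : Fin 19) : Bool := (nb u).testBit v

lemma adjB_symm : ∀ u v, adjB u v = true → adjB v u = true := by decide +kernel
lemma adjB_irr : ∀ u, adjB u u = false := by decide +kernel

def G0 : SimpleGraph (Fin 19) where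
  Adj u v := adjB u v = true
  symm := ⟨adjB_symm⟩
  loopless := ⟨fun u h => by simp [adjB_irr u] at h⟩

instance : DecidableRel G0.Adj := fun u v => inferInstanceAs (Decidable (adjB u v = true))

def force {α : Type} (x : ℕ) (k : ℕ → α) : α := Nat.casesOn x (k 0) fun y => k (y + 1)

lemma force_eq {α : Type} (x : ℕ) (k : ℕ → α) : force x k = k x := by
  cases x <;> rfl

def ex (R : ℕ) : ℕ → ℕ
  | 0 => 0
  | v + 1 => bif R.testBit v then nb v ||| ex R v else ex R v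

lemma ex_spec (R : ℕ) : ∀ m w, (ex R m).testBit w = true →
    ∃ v, v < m ∧ R.testBit v = true ∧ (nb v).testBit w = true := by
  intro m
  induction m with
  | zero => intro w h; simp [ex] at h
  | succ m ih =>
    intro w h
    unfold ex at h
    cases hR : R.testBit m
    · rw [hR, cond_false] at h
      obtain ⟨v, a, b⟩ := ih w h
      exact ⟨v, by omega, b⟩
    · rw [hR, cond_true, Nat.testBit_or, Bool.or_eq_true] at h
      rcases h with h | h
      · exact ⟨m, by omega, hR, h⟩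
      · obtain ⟨v, a, b⟩ := ih w h
        exact ⟨v, by omega, b⟩

def fill (W : ℕ) : ℕ → ℕ → ℕ
  | 0, R => R
  | f + 1, R => force (R ||| (ex R 19 &&& W)) fun R' => bif Nat.beq R' R then R else fill W f R'

def cov (W : ℕ) : ℕ → ℕ → Bool
  | 0, Rm => Nat.beq Rm 0
  | k + 1, Rm => bif Nat.beq Rm 0 then true else force Rm.log2 fun r => W.testBit r &&
      force (Rm &&& (524287 ^^^ fill W 19 (2 ^ r))) fun Rm' => cov W k Rm'

def go : ℕ → ℕ → ℕ → ℕ → Bool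
  | 0, S, _, k => Nat.beq k 0 || force (524287 ^^^ S) fun W => cov W k W
  | i + 1, S, F, k => go i S F k && (F.testBit i || force (S ||| 2 ^ i) fun S' =>
      force (F ||| nb i) fun F' => force (k + 1) fun k' => go i S' F' k')

lemma go_true : go 19 0 0 0 = true := by decide +kernel

section Sound

variable (T : Finset (Fin 19))

def Inv (r : ((T : Set (Fin 19))ᶜ : Set (Fin 19))) (R : ℕ) : Prop :=
  ∀ w, R.testBit w = true → ∃ (h : w < 19) (h' : (⟨w, h⟩ : Fin 19) ∉ T),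
    (G0.induce ((T : Set (Fin 19))ᶜ)).Reachable r ⟨⟨w, h⟩, h'⟩

lemma fill_inv (W : ℕ) (hW : ∀ w, W.testBit w = true → ∃ h : w < 19, (⟨w, h⟩ : Fin 19) ∉ T)
    (r : ((T : Set (Fin 19))ᶜ : Set (Fin 19))) :
    ∀ f R, Inv T r R → Inv T r (fill W f R) := by
  intro f
  induction f with
  | zero => intro R h; exact h
  | succ f ih =>
    intro R h
    unfold fill
    rw [force_eq]
    cases Nat.beq (R ||| (ex R 19 &&& W)) R
    · rw [cond_false]
      apply ih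
      intro w hw
      rw [Nat.testBit_or, Nat.testBit_and, Bool.or_eq_true, Bool.and_eq_true] at hw
      rcases hw with hw | ⟨h1, h2⟩
      · exact h w hw
      · obtain ⟨v, -, b, c⟩ := ex_spec R 19 w h1
        obtain ⟨v1, v2, v3⟩ := h v b
        obtain ⟨w1, w2⟩ := hW w h2
        refine ⟨w1, w2, v3.trans (SimpleGraph.Adj.reachable ?_)⟩
        exact c
    · exact h

lemma full_bit (w : ℕ) : (524287 : ℕ).testBit w = decide (w < 19) :=
  Nat.testBit_two_pow_sub_one 19 w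

lemma cov_sound (W : ℕ) (hW : ∀ w, W.testBit w = true → ∃ h : w < 19, (⟨w, h⟩ : Fin 19) ∉ T) :
    ∀ k Rm, cov W k Rm = true →
      ∃ C : Finset (G0.induce ((T : Set (Fin 19))ᶜ)).ConnectedComponent, C.card ≤ k ∧
        ∀ v : ((T : Set (Fin 19))ᶜ : Set (Fin 19)), Rm.testBit v.1.1 = true →
          (G0.induce ((T : Set (Fin 19))ᶜ)).connectedComponentMk v ∈ C := by
  classical
  intro k
  induction k with
  | zero =>
    intro Rm h
    have : Rm = 0 := Nat.eq_of_beq_eq_true h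
    subst this
    exact ⟨∅, by simp, fun v hv => by simp at hv⟩
  | succ k ih =>
    intro Rm h
    unfold cov at h
    cases h0 : Nat.beq Rm 0
    · rw [h0, cond_false, force_eq, Bool.and_eq_true, force_eq] at h
      obtain ⟨h1, h2⟩ := h
      obtain ⟨C, c1, c2⟩ := ih _ h2
      obtain ⟨r1, r2⟩ := hW _ h1
      have hinv : Inv T ⟨⟨Rm.log2, r1⟩, r2⟩ (fill W 19 (2 ^ Rm.log2)) := by
        apply fill_inv T W hW
        intro w hw
        rw [Nat.testBit_two_pow, decide_eq_true_eq] at hw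
        subst hw
        exact ⟨r1, r2, SimpleGraph.Reachable.refl _⟩
      refine ⟨insert ((G0.induce ((T : Set (Fin 19))ᶜ)).connectedComponentMk
        ⟨⟨Rm.log2, r1⟩, r2⟩) C, (Finset.card_insert_le _ _).trans (by omega), ?_⟩
      intro v hv
      cases hf : (fill W 19 (2 ^ Rm.log2)).testBit v.1.1
      · apply Finset.mem_insert_of_mem
        apply c2
        rw [Nat.testBit_and, Nat.testBit_xor, hv, hf, full_bit]
        simp
      · obtain ⟨a, b, c⟩ := hinv _ hf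
        apply Finset.mem_insert.2
        left
        exact (SimpleGraph.ConnectedComponent.sound c).symm
    · have : Rm = 0 := Nat.eq_of_beq_eq_true h0
      subst this
      exact ⟨∅, by simp, fun v hv => by simp at hv⟩

lemma go_sound (hT : G0.IsIndepSet (T : Set (Fin 19))) (hne : T.Nonempty) :
    ∀ i S F k, i ≤ 19 → go i S F k = true →
      (∀ w, S.testBit w = true ↔ ∃ h : w < 19, (⟨w, h⟩ : Fin 19) ∈ T ∧ i ≤ w) →
      (∀ w, F.testBit w = true → ∃ u ∈ T, (nb u.1).testBit w = true) →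
      k = (T.filter fun v => i ≤ v.1).card →
      Nat.card (G0.induce ((T : Set (Fin 19))ᶜ)).ConnectedComponent ≤ T.card := by
  intro i
  induction i with
  | zero =>
    intro S F k _ h hS _ hk
    have hk' : k = T.card := by simpa using hk
    unfold go at h
    rw [Bool.or_eq_true, force_eq] at h
    rcases h with h | h
    · have := Nat.eq_of_beq_eq_true h
      have := hne.card_pos
      omega
    · obtain ⟨C, c1, c2⟩ := cov_sound T (524287 ^^^ S) (by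
        intro w hw
        rw [Nat.testBit_xor, full_bit] at hw
        cases hs : S.testBit w
        · rw [hs] at hw
          have hlt : w < 19 := by simpa using hw
          refine ⟨hlt, fun hm => ?_⟩
          have := (hS w).2 ⟨hlt, hm, Nat.zero_le _⟩
          rw [hs] at this
          exact absurd this (by simp)
        · obtain ⟨hlt, -⟩ := (hS w).1 hs
          rw [hs] at hw
          simp [hlt] at hw) k _ h
      rw [← hk', ← Set.ncard_univ]
      refine le_trans (Set.ncard_le_ncard (t := (C : Set _)) ?_ C.finite_toSet) ?_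
      · intro c _
        induction c using SimpleGraph.ConnectedComponent.ind with
        | _ v =>
          apply c2
          rw [Nat.testBit_xor, full_bit]
          cases hs : S.testBit v.1.1
          · simp
          · obtain ⟨_, hm, -⟩ := (hS _).1 hs
            exact absurd hm v.2
      · rw [Set.ncard_coe_finset]
        exact c1
  | succ i ih =>
    intro S F k hi h hS hF hk
    unfold go at h
    rw [Bool.and_eq_true, Bool.or_eq_true, force_eq, force_eq, force_eq] at h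
    obtain ⟨h1, h2⟩ := h
    have hi' : i < 19 := by omega
    by_cases hm : (⟨i, hi'⟩ : Fin 19) ∈ T
    · rcases h2 with h2 | h2
      · obtain ⟨u, hu, hb⟩ := hF i h2
        have hadj : G0.Adj u ⟨i, hi'⟩ := hb
        exact absurd hadj (hT hu hm hadj.ne)
      · refine ih _ _ _ (by omega) h2 ?_ ?_ ?_
        · intro w
          rw [Nat.testBit_or, Bool.or_eq_true, hS, Nat.testBit_two_pow, decide_eq_true_eq]
          constructor
          · rintro (⟨a, b, c⟩ | rfl)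
            · exact ⟨a, b, by omega⟩
            · exact ⟨hi', hm, le_rfl⟩
          · rintro ⟨a, b, c⟩
            by_cases hw : i = w
            · exact Or.inr hw
            · exact Or.inl ⟨a, b, by omega⟩
        · intro w hw
          rw [Nat.testBit_or, Bool.or_eq_true] at hw
          rcases hw with hw | hw
          · exact hF w hw
          · exact ⟨_, hm, hw⟩
        · have : (T.filter fun v => i ≤ v.1) =
              insert (⟨i, hi'⟩ : Fin 19) (T.filter fun v => i + 1 ≤ v.1) := by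
            ext v
            simp only [Finset.mem_filter, Finset.mem_insert, Fin.ext_iff]
            constructor
            · rintro ⟨a, b⟩
              by_cases hv : v.1 = i
              · exact Or.inl hv
              · exact Or.inr ⟨a, by omega⟩
            · rintro (hv | ⟨a, b⟩)
              · have : v = ⟨i, hi'⟩ := Fin.ext hv
                subst this
                exact ⟨hm, le_rfl⟩
              · exact ⟨a, by omega⟩
          rw [this, Finset.card_insert_of_notMem (by simp), hk]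
    · refine ih _ _ _ (by omega) h1 ?_ hF ?_
      · intro w
        rw [hS]
        constructor
        · rintro ⟨a, b, c⟩
          exact ⟨a, b, by omega⟩
        · rintro ⟨a, b, c⟩
          refine ⟨a, b, ?_⟩
          by_cases hw : i = w
          · subst hw
            exact absurd b hm
          · omega
      · rw [hk]
        congr 1
        ext v
        simp only [Finset.mem_filter]
        constructor
        · rintro ⟨a, b⟩
          exact ⟨a, by omega⟩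
        · rintro ⟨a, b⟩
          refine ⟨a, ?_⟩
          by_cases hv : v.1 = i
          · have : v = ⟨i, hi'⟩ := Fin.ext hv
            subst this
            exact absurd a hm
          · omega

end Sound

theorem tough (S : Finset (Fin 19)) (hne : S.Nonempty) (hS : G0.IsIndepSet (S : Set (Fin 19))) :
    Nat.card (G0.induce ((S : Set (Fin 19))ᶜ)).ConnectedComponent ≤ S.card := by
  refine go_sound S hS hne 19 0 0 0 le_rfl go_true ?_ ?_ ?_
  · intro w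
    simp only [Nat.zero_testBit, Bool.false_eq_true, false_iff]
    rintro ⟨a, -, b⟩
    omega
  · intro w hw
    simp at hw
  · symm
    rw [Finset.card_eq_zero, Finset.filter_eq_empty_iff]
    intro v _
    have := v.2
    omega

/-- lower bound for the number of components from a colouring -/
lemma comp_ge {W : Type} [Finite W] (H : SimpleGraph W) (S : Set W) (col : W → ℕ) (m : ℕ)
    (h1 : ∀ a b, a ∉ S → b ∉ S → H.Adj a b → col a = col b)
    (h2 : ∀ c, c < m → ∃ a, a ∉ S ∧ col a = c) :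
    m ≤ Nat.card (H.induce Sᶜ).ConnectedComponent := by
  choose f hf using h2
  have key : ∀ a b : (Sᶜ : Set W), (H.induce Sᶜ).Reachable a b → col a.1 = col b.1 := by
    rintro a b ⟨p⟩
    induction p with
    | nil => rfl
    | @cons a b _ hadj _ ih => exact (h1 a.1 b.1 a.2 b.2 hadj).trans ih
  have := Nat.card_le_card_of_injective
    (fun c : Fin m => (H.induce Sᶜ).connectedComponentMk ⟨f c.1 c.2, (hf c.1 c.2).1⟩) (by
      intro c d hcd
      have := key _ _ (SimpleGraph.ConnectedComponent.exact hcd)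
      simp only [(hf _ _).2] at this
      exact Fin.ext this)
  simpa using this

def data : List (Fin 19 × Fin 19 × Bool × List (Fin 19) × List ℕ) :=
  [(0, 3, true, [2, 9, 10, 14],
      [0, 1, 0, 2, 2, 1, 1, 3, 2, 0, 0, 1, 1, 1, 0, 4, 0, 4, 3]),
    (3, 0, true, [2, 9, 10, 14],
      [0, 1, 0, 2, 2, 1, 1, 3, 2, 0, 0, 1, 1, 1, 0, 4, 0, 4, 3]),
    (0, 9, false, [0, 2, 10, 14],
      [0, 0, 0, 1, 1, 0, 0, 2, 1, 0, 0, 0, 0, 0, 0, 3, 4, 3, 2]),
    (9, 0, false, [2, 9, 10, 14],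
      [0, 0, 0, 1, 1, 0, 0, 2, 1, 0, 0, 0, 0, 0, 0, 3, 4, 3, 2]),
    (0, 16, true, [3, 9, 14],
      [0, 1, 1, 0, 2, 1, 1, 1, 2, 0, 1, 1, 1, 1, 0, 1, 3, 1, 1]),
    (16, 0, true, [3, 9, 14],
      [0, 1, 1, 0, 2, 1, 1, 1, 2, 0, 1, 1, 1, 1, 0, 1, 3, 1, 1]),
    (1, 6, true, [2, 9, 10, 13],
      [0, 1, 0, 0, 0, 2, 2, 3, 0, 0, 0, 1, 2, 0, 0, 4, 0, 4, 3]),
    (6, 1, true, [2, 9, 10, 13],
      [0, 1, 0, 0, 0, 2, 2, 3, 0, 0, 0, 1, 2, 0, 0, 4, 0, 4, 3]),
    (1, 9, false, [1, 2, 10, 13],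
      [0, 0, 0, 0, 0, 1, 1, 2, 0, 0, 0, 3, 1, 0, 0, 4, 0, 4, 2]),
    (9, 1, false, [2, 9, 10, 13],
      [0, 0, 0, 0, 0, 1, 1, 2, 0, 0, 0, 3, 1, 0, 0, 4, 0, 4, 2]),
    (1, 11, true, [6, 9, 13],
      [0, 1, 0, 0, 0, 2, 0, 0, 0, 0, 0, 3, 2, 0, 0, 0, 0, 0, 0]),
    (11, 1, true, [6, 9, 13],
      [0, 1, 0, 0, 0, 2, 0, 0, 0, 0, 0, 3, 2, 0, 0, 0, 0, 0, 0]),
    (2, 3, true, [6, 9, 13],
      [0, 1, 2, 0, 0, 3, 0, 2, 0, 0, 2, 1, 3, 0, 0, 2, 0, 2, 2]),
    (3, 2, true, [6, 9, 13],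
      [0, 1, 2, 0, 0, 3, 0, 2, 0, 0, 2, 1, 3, 0, 0, 2, 0, 2, 2]),
    (2, 7, true, [3, 9, 10, 14],
      [0, 1, 2, 0, 3, 1, 1, 4, 3, 0, 0, 1, 1, 1, 0, 2, 0, 2, 4]),
    (7, 2, true, [3, 9, 10, 14],
      [0, 1, 2, 0, 3, 1, 1, 4, 3, 0, 0, 1, 1, 1, 0, 2, 0, 2, 4]),
    (2, 15, true, [3, 9, 10, 14],
      [0, 1, 2, 0, 3, 1, 1, 2, 3, 0, 0, 1, 1, 1, 0, 4, 0, 4, 2]),
    (15, 2, true, [3, 9, 10, 14],
      [0, 1, 2, 0, 3, 1, 1, 2, 3, 0, 0, 1, 1, 1, 0, 4, 0, 4, 2]),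
    (3, 4, true, [2, 9, 10, 14],
      [0, 1, 0, 0, 2, 1, 1, 3, 2, 0, 0, 1, 1, 1, 0, 4, 0, 4, 3]),
    (4, 3, true, [2, 9, 10, 14],
      [0, 1, 0, 0, 2, 1, 1, 3, 2, 0, 0, 1, 1, 1, 0, 4, 0, 4, 3]),
    (4, 8, true, [3, 9, 14],
      [0, 1, 1, 0, 2, 1, 1, 1, 3, 0, 1, 1, 1, 1, 0, 1, 0, 1, 1]),
    (8, 4, true, [3, 9, 14],
      [0, 1, 1, 0, 2, 1, 1, 1, 3, 0, 1, 1, 1, 1, 0, 1, 0, 1, 1]),
    (4, 9, false, [2, 4, 10, 14],
      [0, 1, 0, 0, 0, 1, 1, 2, 3, 0, 0, 1, 1, 1, 0, 4, 0, 4, 2]),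
    (9, 4, false, [2, 9, 10, 14],
      [0, 1, 0, 0, 0, 1, 1, 2, 3, 0, 0, 1, 1, 1, 0, 4, 0, 4, 2]),
    (5, 6, true, [2, 9, 10, 13],
      [0, 1, 0, 0, 0, 2, 1, 3, 0, 0, 0, 1, 2, 0, 0, 4, 0, 4, 3]),
    (6, 5, true, [2, 9, 10, 13],
      [0, 1, 0, 0, 0, 2, 1, 3, 0, 0, 0, 1, 2, 0, 0, 4, 0, 4, 3]),
    (5, 9, false, [2, 5, 10, 13],
      [0, 1, 0, 0, 0, 0, 1, 2, 0, 0, 0, 1, 3, 0, 0, 4, 0, 4, 2]),
    (9, 5, false, [2, 9, 10, 13],
      [0, 1, 0, 0, 0, 0, 1, 2, 0, 0, 0, 1, 3, 0, 0, 4, 0, 4, 2]),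
    (5, 12, true, [6, 9, 13],
      [0, 1, 0, 0, 0, 2, 0, 0, 0, 0, 0, 1, 3, 0, 0, 0, 0, 0, 0]),
    (12, 5, true, [6, 9, 13],
      [0, 1, 0, 0, 0, 2, 0, 0, 0, 0, 0, 1, 3, 0, 0, 0, 0, 0, 0]),
    (6, 10, true, [3, 9, 14],
      [0, 1, 2, 0, 3, 1, 1, 2, 3, 0, 2, 1, 1, 1, 0, 2, 0, 2, 2]),
    (10, 6, true, [3, 9, 14],
      [0, 1, 2, 0, 3, 1, 1, 2, 3, 0, 2, 1, 1, 1, 0, 2, 0, 2, 2]),
    (7, 9, false, [3, 7, 10, 14],
      [0, 1, 2, 0, 3, 1, 1, 0, 3, 0, 0, 1, 1, 1, 0, 2, 0, 2, 4]),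
    (9, 7, false, [3, 9, 10, 14],
      [0, 1, 2, 0, 3, 1, 1, 0, 3, 0, 0, 1, 1, 1, 0, 2, 0, 2, 4]),
    (7, 18, true, [2, 9, 10],
      [0, 0, 0, 0, 0, 0, 0, 1, 0, 0, 0, 0, 0, 0, 0, 2, 0, 2, 3]),
    (18, 7, true, [2, 9, 10],
      [0, 0, 0, 0, 0, 0, 0, 1, 0, 0, 0, 0, 0, 0, 0, 2, 0, 2, 3]),
    (8, 9, false, [3, 6, 8, 13],
      [0, 1, 2, 0, 3, 4, 0, 2, 0, 0, 2, 1, 4, 0, 0, 2, 0, 2, 2]),
    (9, 8, false, [3, 6, 9, 13],
      [0, 1, 2, 0, 3, 4, 0, 2, 0, 0, 2, 1, 4, 0, 0, 2, 0, 2, 2]),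
    (8, 14, true, [3, 6, 9, 13],
      [0, 1, 2, 0, 3, 4, 0, 2, 3, 0, 2, 1, 4, 0, 0, 2, 0, 2, 2]),
    (14, 8, true, [3, 6, 9, 13],
      [0, 1, 2, 0, 3, 4, 0, 2, 3, 0, 2, 1, 4, 0, 0, 2, 0, 2, 2]),
    (9, 11, false, [3, 6, 9, 14],
      [0, 1, 2, 0, 3, 4, 0, 2, 3, 0, 2, 0, 4, 4, 0, 2, 0, 2, 2]),
    (11, 9, false, [3, 6, 11, 14],
      [0, 1, 2, 0, 3, 4, 0, 2, 3, 0, 2, 0, 4, 4, 0, 2, 0, 2, 2]),
    (9, 12, false, [3, 6, 9, 14],
      [0, 1, 2, 0, 3, 4, 0, 2, 3, 0, 2, 1, 0, 1, 0, 2, 0, 2, 2]),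
    (12, 9, false, [3, 6, 12, 14],
      [0, 1, 2, 0, 3, 4, 0, 2, 3, 0, 2, 1, 0, 1, 0, 2, 0, 2, 2]),
    (9, 15, false, [3, 9, 10, 14],
      [0, 1, 2, 0, 3, 1, 1, 2, 3, 0, 0, 1, 1, 1, 0, 0, 0, 4, 2]),
    (15, 9, false, [3, 10, 14, 15],
      [0, 1, 2, 0, 3, 1, 1, 2, 3, 0, 0, 1, 1, 1, 0, 0, 0, 4, 2]),
    (9, 16, false, [3, 6, 9, 13],
      [0, 1, 2, 0, 3, 4, 0, 2, 3, 0, 2, 1, 4, 0, 3, 2, 0, 2, 2]),
    (16, 9, false, [3, 6, 13, 16],
      [0, 1, 2, 0, 3, 4, 0, 2, 3, 0, 2, 1, 4, 0, 3, 2, 0, 2, 2]),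
    (9, 17, false, [2, 6, 9, 13],
      [0, 1, 0, 0, 0, 2, 0, 3, 0, 0, 3, 1, 2, 0, 0, 4, 0, 0, 3]),
    (17, 9, false, [2, 6, 13, 17],
      [0, 1, 0, 0, 0, 2, 0, 3, 0, 0, 3, 1, 2, 0, 0, 4, 0, 0, 3]),
    (9, 18, false, [2, 6, 9, 13],
      [0, 1, 0, 0, 0, 2, 0, 3, 0, 0, 4, 1, 2, 0, 0, 4, 0, 4, 0]),
    (18, 9, false, [2, 6, 13, 18],
      [0, 1, 0, 0, 0, 2, 0, 3, 0, 0, 4, 1, 2, 0, 0, 4, 0, 4, 0]),
    (10, 17, true, [2, 6, 9, 13],
      [0, 1, 0, 0, 0, 2, 0, 3, 0, 0, 3, 1, 2, 0, 0, 4, 0, 4, 3]),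
    (17, 10, true, [2, 6, 9, 13],
      [0, 1, 0, 0, 0, 2, 0, 3, 0, 0, 3, 1, 2, 0, 0, 4, 0, 4, 3]),
    (10, 18, true, [2, 6, 9, 13],
      [0, 1, 0, 0, 0, 2, 0, 3, 0, 0, 4, 1, 2, 0, 0, 4, 0, 4, 3]),
    (18, 10, true, [2, 6, 9, 13],
      [0, 1, 0, 0, 0, 2, 0, 3, 0, 0, 4, 1, 2, 0, 0, 4, 0, 4, 3]),
    (11, 13, true, [3, 6, 9, 14],
      [0, 1, 2, 0, 3, 4, 0, 2, 3, 0, 2, 1, 4, 4, 0, 2, 0, 2, 2]),
    (13, 11, true, [3, 6, 9, 14],
      [0, 1, 2, 0, 3, 4, 0, 2, 3, 0, 2, 1, 4, 4, 0, 2, 0, 2, 2]),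
    (12, 13, true, [3, 6, 9, 14],
      [0, 1, 2, 0, 3, 4, 0, 2, 3, 0, 2, 1, 4, 1, 0, 2, 0, 2, 2]),
    (13, 12, true, [3, 6, 9, 14],
      [0, 1, 2, 0, 3, 4, 0, 2, 3, 0, 2, 1, 4, 1, 0, 2, 0, 2, 2]),
    (13, 14, true, [2, 9, 10],
      [0, 1, 0, 0, 0, 1, 1, 2, 0, 0, 0, 1, 1, 1, 0, 3, 0, 3, 2]),
    (14, 13, true, [2, 9, 10],
      [0, 1, 0, 0, 0, 1, 1, 2, 0, 0, 0, 1, 1, 1, 0, 3, 0, 3, 2]),
    (14, 16, true, [3, 6, 9, 13],
      [0, 1, 2, 0, 3, 4, 0, 2, 3, 0, 2, 1, 4, 0, 3, 2, 0, 2, 2]),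
    (16, 14, true, [3, 6, 9, 13],
      [0, 1, 2, 0, 3, 4, 0, 2, 3, 0, 2, 1, 4, 0, 3, 2, 0, 2, 2]),
    (15, 17, true, [2, 9, 10],
      [0, 0, 0, 0, 0, 0, 0, 1, 0, 0, 0, 0, 0, 0, 0, 2, 0, 3, 1]),
    (17, 15, true, [2, 9, 10],
      [0, 0, 0, 0, 0, 0, 0, 1, 0, 0, 0, 0, 0, 0, 0, 2, 0, 3, 1])]

def okDel (u v : Fin 19) (L : List (Fin 19)) (col : List ℕ) : Bool :=
  decide (L ≠ []) && decide L.Nodup && decide (∀ a ∈ L, ∀ b ∈ L, adjB a b = false) &&
  decide (∀ a b : Fin 19, adjB a b = true →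
    a ∈ L ∨ b ∈ L ∨ (a = u ∧ b = v) ∨ (a = v ∧ b = u) ∨ col.getD a 0 = col.getD b 0) &&
  decide (∀ c, c < L.length + 1 → ∃ a : Fin 19, a ∉ L ∧ col.getD a 0 = c)

def okCon (u v : Fin 19) (L : List (Fin 19)) (col : List ℕ) : Bool :=
  decide (L ≠ []) && decide L.Nodup && decide (v ∉ L) &&
  decide (∀ a ∈ L, ∀ b ∈ L, a = b ∨ (adjB a b = false ∧ (a ≠ u ∨ adjB v b = false))) &&
  decide (∀ a b : Fin 19, (adjB a b = true ∨ (a = u ∧ adjB v b = true)) →
    a = v ∨ b = v ∨ a ∈ L ∨ b ∈ L ∨ col.getD a 0 = col.getD b 0) &&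
  decide (∀ c, c < L.length + 1 → ∃ a : Fin 19, a ≠ v ∧ a ∉ L ∧ col.getD a 0 = c)

lemma data_cover : ∀ u v : Fin 19, adjB u v = true → ∃ d ∈ data, d.1 = u ∧ d.2.1 = v := by
  decide +kernel

lemma data_ok : ∀ d ∈ data, (bif d.2.2.1 then okDel d.1 d.2.1 d.2.2.2.1 d.2.2.2.2 else
    okCon d.1 d.2.1 d.2.2.2.1 d.2.2.2.2) = true := by
  decide +kernel

lemma del_bad (u v : Fin 19) (L : List (Fin 19)) (col : List ℕ) (h : okDel u v L col = true) :
    ¬ ∀ S : Finset (Fin 19), S.Nonempty →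
      (G0.deleteEdges {s(u, v)}).IsIndepSet (S : Set (Fin 19)) →
      Nat.card ((G0.deleteEdges {s(u, v)}).induce ((S : Set (Fin 19))ᶜ)).ConnectedComponent
        ≤ S.card := by
  intro H
  simp only [okDel, Bool.and_eq_true, decide_eq_true_eq] at h
  obtain ⟨⟨⟨⟨h1, h2⟩, h3⟩, h4⟩, h5⟩ := h
  have a1 := H L.toFinset (by simpa using h1) (by
    intro a ha b hb _ hab
    have := h3 a (by simpa using ha) b (by simpa using hb)
    have h' : adjB a b = true := (SimpleGraph.deleteEdges_adj.1 hab).1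
    rw [this] at h'
    exact absurd h' (by simp))
  have a2 := comp_ge (G0.deleteEdges {s(u, v)}) (L.toFinset : Set (Fin 19))
    (fun a => col.getD a 0) (L.length + 1) (by
      intro a b ha hb hab
      obtain ⟨x, y⟩ := SimpleGraph.deleteEdges_adj.1 hab
      rcases h4 a b x with h | h | ⟨rfl, rfl⟩ | ⟨rfl, rfl⟩ | h
      · exact absurd (by simpa using h) ha
      · exact absurd (by simpa using h) hb
      · exact absurd rfl y
      · exact absurd Sym2.eq_swap y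
      · exact h) (by
      intro c hc
      obtain ⟨a, x, y⟩ := h5 c hc
      exact ⟨a, by simpa using x, y⟩)
  rw [List.toFinset_card_of_nodup h2] at a1
  omega

lemma con_bad (u v : Fin 19) (L : List (Fin 19)) (col : List ℕ) (h : okCon u v L col = true) :
    ¬ ∀ S : Finset {w : Fin 19 // w ≠ v}, S.Nonempty →
      (SimpleGraph.fromRel (fun a b : {w : Fin 19 // w ≠ v} =>
          G0.Adj a.1 b.1 ∨ (a.1 = u ∧ G0.Adj v b.1))).IsIndepSet
        (S : Set {w : Fin 19 // w ≠ v}) →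
      Nat.card ((SimpleGraph.fromRel (fun a b : {w : Fin 19 // w ≠ v} =>
          G0.Adj a.1 b.1 ∨ (a.1 = u ∧ G0.Adj v b.1))).induce
          ((S : Set {w : Fin 19 // w ≠ v})ᶜ)).ConnectedComponent ≤ S.card := by
  intro H
  simp only [okCon, Bool.and_eq_true, decide_eq_true_eq] at h
  obtain ⟨⟨⟨⟨⟨h1, h2⟩, h0⟩, h3⟩, h4⟩, h5⟩ := h
  have hcard : (L.toFinset.subtype (· ≠ v)).card = L.length := by
    rw [Finset.card_subtype, Finset.filter_true_of_mem, List.toFinset_card_of_nodup h2]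
    intro a ha hav
    subst hav
    exact h0 (by simpa using ha)
  have hmem : ∀ a : {w : Fin 19 // w ≠ v}, a ∈ L.toFinset.subtype (· ≠ v) ↔ a.1 ∈ L := by
    intro a
    simp
  have hno : ∀ a ∈ L, ∀ b ∈ L, a ≠ b → ¬ (G0.Adj a b ∨ (a = u ∧ G0.Adj v b)) := by
    intro a ha b hb hab hh
    rcases h3 a ha b hb with h | ⟨x, y⟩
    · exact hab h
    · rcases hh with hh | ⟨p, q⟩
      · have hh' : adjB a b = true := hh
        rw [x] at hh'
        exact absurd hh' (by simp)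
      · rcases y with y | y
        · exact y p
        · have q' : adjB v b = true := q
          rw [y] at q'
          exact absurd q' (by simp)
  have a1 := H (L.toFinset.subtype (· ≠ v)) (by
    rw [← Finset.card_pos, hcard]
    exact List.length_pos_iff.2 h1) (by
    intro a ha b hb hne hab
    have ha' := (hmem a).1 ha
    have hb' := (hmem b).1 hb
    have hne' : a.1 ≠ b.1 := fun h => hne (Subtype.ext h)
    rcases (SimpleGraph.fromRel_adj _ _ _).1 hab with ⟨-, x | x⟩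
    · exact hno _ ha' _ hb' hne' x
    · exact hno _ hb' _ ha' hne'.symm x)
  have hc : ∀ a b : {w : Fin 19 // w ≠ v}, a.1 ∉ L → b.1 ∉ L →
      (G0.Adj a.1 b.1 ∨ (a.1 = u ∧ G0.Adj v b.1)) → col.getD a.1 0 = col.getD b.1 0 := by
    intro a b ha hb x
    rcases h4 a.1 b.1 x with h | h | h | h | h
    · exact absurd h a.2
    · exact absurd h b.2
    · exact absurd h ha
    · exact absurd h hb
    · exact h
  have a2 := comp_ge (SimpleGraph.fromRel (fun a b : {w : Fin 19 // w ≠ v} =>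
          G0.Adj a.1 b.1 ∨ (a.1 = u ∧ G0.Adj v b.1)))
    ((L.toFinset.subtype (· ≠ v) : Finset {w : Fin 19 // w ≠ v}) : Set {w : Fin 19 // w ≠ v})
    (fun a => col.getD a.1 0) (L.length + 1) (by
      intro a b ha hb hab
      have ha' : a.1 ∉ L := fun h => ha ((hmem a).2 h)
      have hb' : b.1 ∉ L := fun h => hb ((hmem b).2 h)
      rcases (SimpleGraph.fromRel_adj _ _ _).1 hab with ⟨-, x | x⟩
      · exact hc a b ha' hb' x
      · exact (hc b a hb' ha' x).symm) (by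
      intro c hc
      obtain ⟨a, x, y, z⟩ := h5 c hc
      exact ⟨⟨a, x⟩, fun h => y ((hmem ⟨a, x⟩).1 h), z⟩)
  rw [hcard] at a1
  omega

lemma deg : ∀ x : Fin 19, 3 ≤ G0.degree x := by decide +kernel

end Pool.Agent.H.MP_016f39_co
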